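import Pool.Agent.Helper29.MS.Fwd

/-!
# CR (MP_ad1693_nt), C10: Cramer's mean square order for the BSD product

`hh (e^t) = q1 t + q2 t`, `t * q1 t` has mean square `O(1)` by C9, `|q2 t| ≤ C / t`; substitution `x = e^t`.
-/

set_option autoImplicit false

namespace Pool.Agent.Helper16.CR

open Complex Filter Topology MeasureTheory Set Metric
open Pool.Agent.Helper13.Bsd Pool.Agent.Helper7.GW Pool.Agent.Helper58.BSD Pool.Agent.Helper29.MS

/-- The substitution `x = e^t` on a bounded interval. -/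
theorem subst_exp (f : ℝ → ℝ) (a b : ℝ) :
    (IntegrableOn (fun x => f x / x) (Ioc (Real.exp a) (Real.exp b)) ↔ IntegrableOn (fun t => f (Real.exp t)) (Ioc a b)) ∧
      ∫ x in Ioc (Real.exp a) (Real.exp b), f x / x = ∫ t in Ioc a b, f (Real.exp t) := by
  have himg : Real.exp '' (Ioc a b) = Ioc (Real.exp a) (Real.exp b) := by
    ext x
    constructor
    · rintro ⟨t, ht, rfl⟩
      exact ⟨Real.exp_lt_exp.2 ht.1, Real.exp_le_exp.2 ht.2⟩
    · intro hx
      have hx0 : 0 < x := (Real.exp_pos a).trans hx.1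
      refine ⟨Real.log x, ⟨?_, ?_⟩, Real.exp_log hx0⟩
      · rw [Real.lt_log_iff_exp_lt hx0]
        exact hx.1
      · rw [Real.log_le_iff_le_exp hx0]
        exact hx.2
  have hder : ∀ x ∈ Ioc a b, HasDerivWithinAt Real.exp (Real.exp x) (Ioc a b) x := fun x _ =>
    (Real.hasDerivAt_exp x).hasDerivWithinAt
  have hinj : InjOn Real.exp (Ioc a b) := Real.exp_injective.injOn
  have hfun : (fun x => |Real.exp x| • (f (Real.exp x) / Real.exp x)) = fun t => f (Real.exp t) := by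
    funext x
    rw [abs_of_pos (Real.exp_pos x), smul_eq_mul, mul_div_cancel₀ _ (Real.exp_pos x).ne']
  constructor
  · rw [← himg, integrableOn_image_iff_integrableOn_abs_deriv_smul measurableSet_Ioc hder hinj, hfun]
  · rw [← himg, integral_image_eq_integral_abs_deriv_smul measurableSet_Ioc hder hinj, hfun]

/-- C10 from C9. -/
theorem cramer_fwd_of
    (C9 : ∀ {v : ℝ → ℝ} {G : ℂ → ℂ} {A a η B c : ℝ} {k : ℕ}, Setup v G A a η → ∀ (r : ℕ) (g : ℝ), 0 < g →
      Tendsto (fun y : ℝ => ‖G (y : ℂ)‖ / y ^ r) (𝓝[>] 0) (𝓝 g) →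
      (∀ s : ℂ, 0 < s.re → G s ≠ 0) →
      (∀ s : ℂ, -η < s.re → ‖G s‖ ≤ B * (1 + ‖s‖) ^ k) →
      (∀ s : ℂ, c ≤ s.re → ‖s * Lap v s‖ ≤ B) →
      ∃ K : ℝ, 0 ≤ K ∧ ∀ T : ℝ, 1 ≤ T →
        IntegrableOn (fun t => (t * (v t - r * Real.log t - (r * Real.eulerMascheroniConstant - Real.log g))) ^ 2)
          (Ioc 1 T) ∧
        ∫ t in Ioc 1 T, (t * (v t - r * Real.log t - (r * Real.eulerMascheroniConstant - Real.log g))) ^ 2 ≤ K * T)
    (W : WeierstrassCurve ℤ) (N : ℕ → ℕ)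
    (hNdef : ∀ p : ℕ, N p = 1 + ((Finset.range p ×ˢ Finset.range p).filter
      (fun q : ℕ × ℕ => (p : ℤ) ∣ ((q.2 : ℤ) ^ 2 + W.a₁ * (q.1 : ℤ) * (q.2 : ℤ) + W.a₃ * (q.2 : ℤ)
        - ((q.1 : ℤ) ^ 3 + W.a₂ * (q.1 : ℤ) ^ 2 + W.a₄ * (q.1 : ℤ) + W.a₆)))).card)
    (hΔ : W.Δ ≠ 0) (F : ℂ → ℂ) (hFd : Differentiable ℂ F) (hF : EulerHyp W N F)
    (hgr : ∃ (A : ℝ) (k : ℕ), ∀ s : ℂ, 1 / 2 ≤ s.re → ‖F s‖ ≤ A * (1 + ‖s‖) ^ k)
    (hRH : ∀ ρ : ℂ, 1 < ρ.re → F ρ ≠ 0) :
    ∃ K : ℝ, ∀ X : ℝ, 2 ≤ X → IntegrableOn (fun x => (hh W N F x * Real.log x) ^ 2 / x) (Ioc 2 X) ∧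
      ∫ x in Ioc 2 X, (hh W N F x * Real.log x) ^ 2 / x ≤ K * Real.log X := by
  set r := analyticOrderNatAt F 1 with hr
  have hN := nhyp W N hNdef
  have hB : EulerB N (badW W) F := hF
  obtain ⟨A, hS⟩ := bsd_setup hN F hFd hB
  obtain ⟨hg0, hg⟩ := GG_lead hN F hFd hB
  rw [← hr] at hg0 hg
  obtain ⟨B1, k, hB1, hgrow⟩ := GG_growth (bad := badW W) hN F hgr
  obtain ⟨B2, hB2, hright⟩ := right_bound (bad := badW W) hN
  have hrh : ∀ s : ℂ, 0 < s.re → GG N (badW W) F s ≠ 0 := by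
    intro s hs h0
    rw [GG_zero_iff hN F s hs.le] at h0
    refine hRH (1 + s) ?_ h0
    rw [add_re, one_re]
    linarith
  set g : ℝ := ‖iteratedDeriv r F 1‖ / (r.factorial : ℝ) * Real.exp (E0 N (badW W)) with hgdef
  have hgr2 : ∀ s : ℂ, -(1 / 100 : ℝ) < s.re → ‖GG N (badW W) F s‖ ≤ max B1 B2 * (1 + ‖s‖) ^ k := by
    intro s hs
    refine (hgrow s hs).trans ?_
    gcongr
    exact le_max_left _ _
  have hr2 : ∀ s : ℂ, (11 : ℝ) ≤ s.re →
      ‖s * Lap (fun t => LL N (badW W) t - ee N (badW W) t) s‖ ≤ max B1 B2 := fun s hs =>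
    (hright s hs).trans (le_max_right _ _)
  obtain ⟨K1, hK1, hcr⟩ := C9 hS r g hg0 hg hrh hgr2 hr2
  set q1 : ℝ → ℝ := fun t => (LL N (badW W) t - ee N (badW W) t) - r * Real.log t
    - (r * Real.eulerMascheroniConstant - Real.log g) with hq1
  have hq1m : Measurable q1 := by
    have h1 := (measurable_LL N (badW W)).sub (measurable_ee (N := N) (bad := badW W))
    have h2 : Measurable fun t : ℝ => (r : ℝ) * Real.log t := Real.measurable_log.const_mul _
    exact (h1.sub h2).sub_const _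
  set q : ℝ → ℝ := fun t => hh W N F (Real.exp t) with hq
  have hqm : Measurable q := (measurable_hh W N F).comp Real.measurable_exp
  set q2 : ℝ → ℝ := fun t => q t - q1 t with hq2
  have hq2m : Measurable q2 := hqm.sub hq1m
  have hpos : 0 < ‖iteratedDeriv r F 1‖ := by
    have h1 : ‖iteratedDeriv r F 1‖ ≠ 0 := by
      intro h
      rw [hgdef, h] at hg0
      simp at hg0
    exact lt_of_le_of_ne (norm_nonneg _) (Ne.symm h1)
  have hkon : Real.log (kon F) = r * Real.eulerMascheroniConstant - Real.log g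
      + (Real.log 2 + E0 N (badW W)) := by
    have h1 : Real.exp (r * Real.eulerMascheroniConstant - Real.log g
        + (Real.log 2 + E0 N (badW W))) = kon F := by
      rw [Real.exp_add, Real.exp_sub, Real.exp_log hg0, Real.exp_add, Real.exp_log two_pos, hgdef]
      unfold kon
      rw [← hr]
      have := Real.exp_pos (E0 N (badW W))
      field_simp
    rw [← h1, Real.log_exp]
  have hq2eq : ∀ t : ℝ, 0 < t → q2 t = ee N (badW W) t + SSb N (badW W) (Real.exp t)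
      - (Real.log 2 + E0 N (badW W)) := by
    intro t ht
    simp only [hq2, hq, hq1]
    rw [hh_exp W N hNdef hΔ F hFd hF t ht, SS_eq, hkon, ← hr]
    ring
  obtain ⟨C, T, hC, hT, hrate⟩ := ee_rate hN (finite_bad W hΔ)
  obtain ⟨Ce, hCe, hCe2⟩ := ee_bdd (bad := badW W) hN
  obtain ⟨C1, hC1, hSS⟩ := SSb_bdd (bad := badW W) hN
  set M : ℝ := Ce + C1 + |Real.log 2 + E0 N (badW W)| with hM
  have hM0 : 0 ≤ M := by positivity
  set K : ℝ := C + M * T with hK
  have hK0 : 0 ≤ K := by positivity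
  have hq2b : ∀ t : ℝ, 1 < t → |q2 t| ≤ K / t := by
    intro t ht
    have ht0 : 0 < t := by linarith
    rw [hq2eq t ht0]
    rcases le_total T t with h | h
    · refine (hrate t h).trans ?_
      gcongr
      rw [hK]
      have : 0 ≤ M * T := by positivity
      linarith
    · have h1 := hCe2 t ht0
      have h2 := hSS (Real.exp t)
      have h3 : |ee N (badW W) t + SSb N (badW W) (Real.exp t) - (Real.log 2 + E0 N (badW W))| ≤ M := by
        refine (abs_sub _ _).trans ?_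
        refine add_le_add ((abs_add_le _ _).trans (add_le_add h1 ?_)) le_rfl
        rw [abs_of_nonneg h2.1]
        exact h2.2
      refine h3.trans ?_
      rw [le_div_iff₀ ht0, hK]
      have : M * t ≤ M * T := mul_le_mul_of_nonneg_left h hM0
      linarith
  -- the pointwise bound for `t > 1`
  have hpt : ∀ t : ℝ, 1 < t → (q t * t) ^ 2 ≤ 2 * (t * q1 t) ^ 2 + 2 * K ^ 2 := by
    intro t ht
    have ht0 : 0 < t := by linarith
    have h1 : q t * t = t * q1 t + t * q2 t := by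
      simp only [hq2]
      ring
    have h2 : |t * q2 t| ≤ K := by
      rw [abs_mul, abs_of_pos ht0]
      have := hq2b t ht
      rw [le_div_iff₀ ht0] at this
      linarith
    have h3 : (t * q2 t) ^ 2 ≤ K ^ 2 := by
      rw [← sq_abs]
      exact pow_le_pow_left₀ (abs_nonneg _) h2 2
    rw [h1]
    nlinarith [sq_nonneg (t * q1 t - t * q2 t)]
  obtain ⟨D, hD, hDb⟩ := hh_bdd W N hNdef hΔ F hFd hF (Real.log 2) 1 (Real.log_pos one_lt_two)
  have hl2 : 0 < Real.log 2 := Real.log_pos one_lt_two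
  have hl21 : Real.log 2 ≤ 1 := by
    have := Real.log_two_lt_d9
    linarith
  have hQm : Measurable fun t : ℝ => (q t * t) ^ 2 := (hqm.mul measurable_id).pow_const 2
  have hlow : ∀ t ∈ Ioc (Real.log 2) 1, (q t * t) ^ 2 ≤ D ^ 2 := by
    intro t ht
    have ht0 : 0 < t := hl2.trans ht.1
    have h1 := hDb t ht.1.le ht.2
    have h2 : |q t * t| ≤ D := by
      rw [abs_mul, abs_of_pos ht0]
      calc |q t| * t ≤ D * 1 := mul_le_mul h1 ht.2 ht0.le hD
        _ = D := mul_one D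
    rw [← sq_abs]
    exact pow_le_pow_left₀ (abs_nonneg _) h2 2
  have hI1 : IntegrableOn (fun t => (q t * t) ^ 2) (Ioc (Real.log 2) 1) := by
    refine Measure.integrableOn_of_bounded (M := D ^ 2) measure_Ioc_lt_top.ne hQm.aestronglyMeasurable ?_
    rw [ae_restrict_iff' measurableSet_Ioc]
    refine Filter.Eventually.of_forall fun t ht => ?_
    rw [Real.norm_eq_abs, abs_of_nonneg (sq_nonneg _)]
    exact hlow t ht
  have hJ1 : ∫ t in Ioc (Real.log 2) 1, (q t * t) ^ 2 ≤ D ^ 2 := by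
    calc ∫ t in Ioc (Real.log 2) 1, (q t * t) ^ 2 ≤ ∫ _t in Ioc (Real.log 2) 1, D ^ 2 :=
          setIntegral_mono_on hI1 (integrableOn_const measure_Ioc_lt_top.ne) measurableSet_Ioc hlow
      _ = (1 - Real.log 2) * D ^ 2 := by
          rw [setIntegral_const, smul_eq_mul, Measure.real, Real.volume_Ioc, ENNReal.toReal_ofReal (by linarith)]
      _ ≤ D ^ 2 := by nlinarith [sq_nonneg D]
  have hI2 : ∀ T : ℝ, 1 ≤ T → IntegrableOn (fun t => (q t * t) ^ 2) (Ioc 1 T) ∧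
      ∫ t in Ioc 1 T, (q t * t) ^ 2 ≤ (2 * K1 + 2 * K ^ 2) * T := by
    intro T hT1
    obtain ⟨h1, h2⟩ := hcr T hT1
    have h3 : IntegrableOn (fun t => 2 * (t * q1 t) ^ 2 + 2 * K ^ 2) (Ioc 1 T) :=
      (h1.const_mul 2).add (integrableOn_const measure_Ioc_lt_top.ne)
    have h4 : IntegrableOn (fun t => (q t * t) ^ 2) (Ioc 1 T) := by
      refine Integrable.mono' h3 hQm.aestronglyMeasurable ?_
      rw [ae_restrict_iff' measurableSet_Ioc]
      refine Filter.Eventually.of_forall fun t ht => ?_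
      rw [Real.norm_eq_abs, abs_of_nonneg (sq_nonneg _)]
      exact hpt t ht.1
    refine ⟨h4, ?_⟩
    calc ∫ t in Ioc 1 T, (q t * t) ^ 2 ≤ ∫ t in Ioc 1 T, (2 * (t * q1 t) ^ 2 + 2 * K ^ 2) :=
          setIntegral_mono_on h4 h3 measurableSet_Ioc fun t ht => hpt t ht.1
      _ = 2 * (∫ t in Ioc 1 T, (t * q1 t) ^ 2) + (T - 1) * (2 * K ^ 2) := by
          rw [integral_add (h1.const_mul 2) (integrableOn_const measure_Ioc_lt_top.ne), integral_const_mul,
            setIntegral_const, smul_eq_mul, Measure.real, Real.volume_Ioc, ENNReal.toReal_ofReal (by linarith)]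
      _ ≤ (2 * K1 + 2 * K ^ 2) * T := by nlinarith [sq_nonneg K]
  refine ⟨(D ^ 2 + (2 * K1 + 2 * K ^ 2)) / Real.log 2, fun X hX => ?_⟩
  have hX0 : 0 < X := by linarith
  obtain ⟨Y, hY⟩ : ∃ Y : ℝ, Y = Real.log X := ⟨_, rfl⟩
  have hYX : Real.exp Y = X := by rw [hY, Real.exp_log hX0]
  have hY2 : Real.log 2 ≤ Y := by
    rw [hY]
    exact Real.log_le_log two_pos hX
  have hsub := subst_exp (fun x => (hh W N F x * Real.log x) ^ 2) (Real.log 2) Y
  rw [Real.exp_log two_pos, hYX] at hsub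
  have hfun : (fun t => (hh W N F (Real.exp t) * Real.log (Real.exp t)) ^ 2) = fun t => (q t * t) ^ 2 := by
    funext t
    rw [Real.log_exp]
  simp only [hfun] at hsub
  obtain ⟨hiff, heq⟩ := hsub
  set T1 : ℝ := max Y 1 with hT1
  have hT11 : 1 ≤ T1 := le_max_right _ _
  obtain ⟨hI3, hJ3⟩ := hI2 T1 hT11
  have hIall : IntegrableOn (fun t => (q t * t) ^ 2) (Ioc (Real.log 2) 1 ∪ Ioc 1 T1) := hI1.union hI3
  have hss : Ioc (Real.log 2) Y ⊆ Ioc (Real.log 2) 1 ∪ Ioc 1 T1 := by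
    intro t ht
    rcases le_or_gt t 1 with h | h
    · exact Or.inl ⟨ht.1, h⟩
    · exact Or.inr ⟨h, ht.2.trans (le_max_left _ _)⟩
  refine ⟨hiff.2 (hIall.mono_set hss), ?_⟩
  rw [heq, ← hY]
  have hdis : Disjoint (Ioc (Real.log 2) 1) (Ioc 1 T1) := by
    rw [Set.disjoint_left]
    intro t h1 h2
    exact absurd h1.2 (not_le.2 h2.1)
  have hTY : T1 ≤ Y / Real.log 2 := by
    rw [le_div_iff₀ hl2, hT1]
    rcases le_total Y 1 with h | h
    · rw [max_eq_right h]
      linarith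
    · rw [max_eq_left h]
      nlinarith
  have h1Y : 1 ≤ Y / Real.log 2 := hT11.trans hTY
  calc ∫ t in Ioc (Real.log 2) Y, (q t * t) ^ 2
      ≤ ∫ t in Ioc (Real.log 2) 1 ∪ Ioc 1 T1, (q t * t) ^ 2 :=
        setIntegral_mono_set hIall (Filter.Eventually.of_forall fun t => sq_nonneg _) hss.eventuallyLE
    _ = (∫ t in Ioc (Real.log 2) 1, (q t * t) ^ 2) + ∫ t in Ioc 1 T1, (q t * t) ^ 2 :=
        setIntegral_union hdis measurableSet_Ioc hI1 hI3
    _ ≤ D ^ 2 + (2 * K1 + 2 * K ^ 2) * T1 := add_le_add hJ1 hJ3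
    _ ≤ D ^ 2 * (Y / Real.log 2) + (2 * K1 + 2 * K ^ 2) * (Y / Real.log 2) := by
        refine add_le_add ?_ (mul_le_mul_of_nonneg_left hTY (by positivity))
        exact le_mul_of_one_le_right (sq_nonneg D) h1Y
    _ = (D ^ 2 + (2 * K1 + 2 * K ^ 2)) / Real.log 2 * Y := by ring

end Pool.Agent.Helper16.CR
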