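import Pool.Agent.Helper7.GW.AbsBig

/-!
# CR-N1: a zero with real part `θ > 0` makes the integral of `max v 0` over every window `[T, (1+δ)T]` large

As in `GW/AbsBig`, with `∫_{win} v ker ≤ w ∫_{win} max v 0` (`ker ≤ w`) in the place of the pointwise bound.
-/

set_option autoImplicit false

namespace Pool.Agent.Helper16.CR

open MeasureTheory Set Filter Topology
open Pool.Agent.Helper7.GW

private theorem n1_prel {v : ℝ → ℝ} {G : ℂ → ℂ} {A a η₀ : ℝ} (h : Setup v G A a η₀) {s : ℂ}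
    (hs : G s = 0) (hs0 : 0 < s.re) {δ ε : ℝ} (hδ : 0 < δ) (hε : 0 < ε) (W1 : ℝ) :
    ∃ δ₁ ε₁ δ' w q C : ℝ, 0 < δ₁ ∧ δ₁ ≤ 1 ∧ δ₁ ≤ δ ∧ 0 < ε₁ ∧ ε₁ ≤ ε ∧ 0 < s.re - ε₁ ∧ 0 ≤ δ' ∧
      δ' ≤ δ₁ / 8 ∧ (s.re - ε₁) * (1 + δ') ≤ s.re - 3 * ε₁ / 4 ∧ a < w ∧ 0 < w ∧ W1 ≤ w ∧
      TailBd a δ' w q C ∧ ‖s - w‖ < w ∧
      ∀ ρ : ℝ, 0 < ρ → ρ ≤ ‖s - w‖ / w →
        ∀ j : ℕ, Real.exp ((j / w) * (s.re - ε₁ / 4)) ≤ (ρ⁻¹) ^ j := by
  set θ := s.re with hθ
  set δ₁ := min δ 1 with hδ₁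
  set ε₁ := min ε (θ / 2) with hε₁
  have hδ₁0 : 0 < δ₁ := lt_min hδ one_pos
  have hδ₁1 : δ₁ ≤ 1 := min_le_right _ _
  have hε₁0 : 0 < ε₁ := lt_min hε (by positivity)
  have hε₁θ : ε₁ ≤ θ / 2 := min_le_right _ _
  set δ' := min (δ₁ / 8) (ε₁ / (4 * θ)) with hδ'
  have hδ'0 : 0 < δ' := lt_min (by positivity) (by positivity)
  have hδ'8 : δ' ≤ δ₁ / 8 := min_le_left _ _
  have hδ'1 : δ' < 1 := by linarith
  have hδ'θ : δ' * θ ≤ ε₁ / 4 := by
    have h1 : δ' ≤ ε₁ / (4 * θ) := min_le_right _ _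
    calc δ' * θ ≤ ε₁ / (4 * θ) * θ := mul_le_mul_of_nonneg_right h1 hs0.le
      _ = ε₁ / 4 := by field_simp
  obtain ⟨W0, haW0, hW01, hW0⟩ := gamma_tail h.grow.ha hδ'0 hδ'1
  set w := max (max W0 W1) (max (2 * ‖s‖ ^ 2 / ε₁) (‖s‖ ^ 2 / θ + 1)) with hw
  have hwW0 : W0 ≤ w := (le_max_left _ _).trans (le_max_left _ _)
  have hwW1 : W1 ≤ w := (le_max_right _ _).trans (le_max_left _ _)
  have hw2 : 2 * ‖s‖ ^ 2 / ε₁ ≤ w := (le_max_left _ _).trans (le_max_right _ _)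
  have hw3 : ‖s‖ ^ 2 / θ + 1 ≤ w := (le_max_right _ _).trans (le_max_right _ _)
  have hw0 : 0 < w := by linarith
  have haw : a < w := haW0.trans_le hwW0
  obtain ⟨q, C, hqC⟩ := hW0 w hwW0
  have hnorm : ‖s - w‖ ^ 2 = w ^ 2 - 2 * w * θ + ‖s‖ ^ 2 := by
    rw [← Complex.normSq_eq_norm_sq, ← Complex.normSq_eq_norm_sq, Complex.normSq_apply,
      Complex.normSq_apply]
    simp only [Complex.sub_re, Complex.sub_im, Complex.ofReal_re, Complex.ofReal_im]
    rw [hθ]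
    ring
  have hlt : ‖s - w‖ < w := by
    have h1 : ‖s‖ ^ 2 + θ ≤ w * θ := by
      have h2 : (‖s‖ ^ 2 / θ + 1) * θ ≤ w * θ := mul_le_mul_of_nonneg_right hw3 hs0.le
      have h3 : (‖s‖ ^ 2 / θ + 1) * θ = ‖s‖ ^ 2 + θ := by field_simp
      linarith
    have h4 : ‖s - w‖ ^ 2 < w ^ 2 := by
      rw [hnorm]
      nlinarith [sq_nonneg ‖s‖]
    exact lt_of_pow_lt_pow_left₀ 2 hw0.le h4
  have hne : 0 < ‖s - w‖ := by
    rw [norm_pos_iff, sub_ne_zero]
    intro hsw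
    have h1 := h.eq (w : ℂ) (by rw [Complex.ofReal_re]; exact haw)
    rw [← hsw, hs] at h1
    exact Complex.exp_ne_zero _ h1.symm
  refine ⟨δ₁, ε₁, δ', w, q, C, hδ₁0, hδ₁1, min_le_left _ _, hε₁0, min_le_left _ _, by linarith,
    hδ'0.le, hδ'8, ?_, haw, hw0, hwW1, hqC, hlt, ?_⟩
  · nlinarith
  · intro ρ hρ0 hρ j
    have h1 := dist_bound hw0 hne hlt j
    have h2 : ‖s‖ ^ 2 / (2 * w) ≤ ε₁ / 4 := by
      rw [div_le_iff₀ (by positivity)]
      rw [div_le_iff₀ hε₁0] at hw2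
      nlinarith
    calc Real.exp ((j / w) * (θ - ε₁ / 4)) ≤ Real.exp ((j / w) * (θ - ‖s‖ ^ 2 / (2 * w))) := by
          apply Real.exp_le_exp.2
          exact mul_le_mul_of_nonneg_left (by linarith) (by positivity)
      _ ≤ (w / ‖s - w‖) ^ j := h1
      _ ≤ (ρ⁻¹) ^ j := by
          apply pow_le_pow_left₀ (by positivity)
          rw [← inv_div]
          exact inv_anti₀ hρ0 hρ

private theorem n1_ker_le {w t : ℝ} (hw : 0 < w) (ht : 0 ≤ t) (j : ℕ) : ker w j t ≤ w := by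
  have h1 := Real.pow_div_factorial_le_exp (w * t) (by positivity) j
  unfold Pool.Agent.Helper7.GW.ker
  have h2 : Real.exp (-w * t) = (Real.exp (w * t))⁻¹ := by
    rw [← Real.exp_neg]
    congr 1
    ring
  rw [h2, mul_div_assoc, mul_assoc]
  have h3 : (w * t) ^ j / (j.factorial : ℝ) * (Real.exp (w * t))⁻¹ ≤ 1 := by
    rw [← div_eq_mul_inv, div_le_one (Real.exp_pos _)]
    exact h1
  calc w * ((w * t) ^ j / (j.factorial : ℝ) * (Real.exp (w * t))⁻¹) ≤ w * 1 :=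
        mul_le_mul_of_nonneg_left h3 hw.le
    _ = w := mul_one w

private theorem n1_intOn {f : ℝ → ℝ} {A a : ℝ} (hf : Grow f A a) {T b : ℝ} (hT : 0 < T) :
    IntegrableOn (fun t => max (f t) 0) (Icc T b) := by
  have hfin : volume (Icc T b) ≠ ⊤ := by simp
  refine MeasureTheory.Measure.integrableOn_of_bounded (M := A * Real.exp (a * b)) hfin
    ((hf.meas.max measurable_const).aestronglyMeasurable) ?_
  refine (ae_restrict_iff' measurableSet_Icc).2 (Eventually.of_forall fun t ht => ?_)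
  have ht0 : 0 < t := hT.trans_le ht.1
  have h1 := hf.bd t ht0
  have h2 : A * Real.exp (a * t) ≤ A * Real.exp (a * b) :=
    mul_le_mul_of_nonneg_left (Real.exp_le_exp.2 (mul_le_mul_of_nonneg_left ht.2 hf.ha)) hf.hA
  have h3 : 0 ≤ max (f t) 0 := le_max_right _ _
  rw [Real.norm_eq_abs, abs_of_nonneg h3]
  refine max_le ?_ ?_
  · exact ((le_abs_self _).trans h1).trans h2
  · have := hf.hA
    positivity

private theorem n1_window {f : ℝ → ℝ} {A a δ w q C : ℝ} (hf : Grow f A a) (haw : a < w)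
    (hT : TailBd a δ w q C) (j : ℕ) {T b : ℝ} (hT0 : 0 < T) (hsub : win δ w j ⊆ Icc T b) :
    gm f w j ≤ w * (∫ t in Icc T b, max (f t) 0) + A * C := by
  have hw : 0 < w := lt_of_le_of_lt hf.ha haw
  have hWm : MeasurableSet (win δ w j) := measurableSet_Icc
  have hTm : MeasurableSet (Ioi (0 : ℝ) \ win δ w j) := measurableSet_Ioi.diff hWm
  have hIm : MeasurableSet (Ioi (0 : ℝ) ∩ win δ w j) := measurableSet_Ioi.inter hWm
  have hi1 := integrableOn_mul_ker hf haw j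
  have hi3 := integrableOn_exp_ker hw haw j
  have hsub1 : Ioi (0 : ℝ) ∩ win δ w j ⊆ Ioi 0 := inter_subset_left
  have hsub2 : Ioi (0 : ℝ) \ win δ w j ⊆ Ioi 0 := diff_subset
  have hsub3 : Ioi (0 : ℝ) ∩ win δ w j ⊆ Icc T b := inter_subset_right.trans hsub
  have hi4 : IntegrableOn (fun t => max (f t) 0) (Icc T b) := n1_intOn hf hT0
  have e1 : gm f w j = (∫ t in Ioi (0 : ℝ) ∩ win δ w j, f t * ker w j t) +
      ∫ t in Ioi (0 : ℝ) \ win δ w j, f t * ker w j t := by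
    unfold gm
    exact (integral_inter_add_diff hWm hi1).symm
  have b1 : ∫ t in Ioi (0 : ℝ) ∩ win δ w j, f t * ker w j t ≤
      ∫ t in Ioi (0 : ℝ) ∩ win δ w j, w * max (f t) 0 := by
    refine setIntegral_mono_on (hi1.mono_set hsub1) ((hi4.mono_set hsub3).const_mul w) hIm ?_
    intro t ht
    have ht0 : 0 < t := ht.1
    have hk0 : 0 ≤ ker w j t := ker_nonneg hw j ht0.le
    have hk1 : ker w j t ≤ w := n1_ker_le hw ht0.le j
    calc f t * ker w j t ≤ max (f t) 0 * ker w j t :=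
          mul_le_mul_of_nonneg_right (le_max_left _ _) hk0
      _ ≤ max (f t) 0 * w := mul_le_mul_of_nonneg_left hk1 (le_max_right _ _)
      _ = w * max (f t) 0 := mul_comm _ _
  have b1' : ∫ t in Ioi (0 : ℝ) ∩ win δ w j, w * max (f t) 0 ≤
      w * ∫ t in Icc T b, max (f t) 0 := by
    rw [integral_const_mul]
    refine mul_le_mul_of_nonneg_left ?_ hw.le
    refine setIntegral_mono_set hi4 (Eventually.of_forall fun t => le_max_right _ _) ?_
    exact HasSubset.Subset.eventuallyLE hsub3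
  have b2 : ∫ t in Ioi (0 : ℝ) \ win δ w j, f t * ker w j t ≤
      A * ∫ t in Ioi (0 : ℝ) \ win δ w j, Real.exp (a * t) * ker w j t := by
    rw [← integral_const_mul]
    refine setIntegral_mono_on (hi1.mono_set hsub2) ((hi3.mono_set hsub2).const_mul A) hTm ?_
    intro t ht
    have h1 : f t ≤ A * Real.exp (a * t) := (le_abs_self _).trans (hf.bd t ht.1)
    calc f t * ker w j t ≤ (A * Real.exp (a * t)) * ker w j t :=
          mul_le_mul_of_nonneg_right h1 (ker_nonneg hw j (le_of_lt ht.1))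
      _ = A * (Real.exp (a * t) * ker w j t) := by ring
  have hqj : q ^ j ≤ 1 := pow_le_one₀ hT.hq0.le hT.hq1.le
  have b8 : A * ∫ t in Ioi (0 : ℝ) \ win δ w j, Real.exp (a * t) * ker w j t ≤ A * C := by
    refine mul_le_mul_of_nonneg_left ((hT.bd j).trans ?_) hf.hA
    calc C * q ^ j ≤ C * 1 := mul_le_mul_of_nonneg_left hqj hT.hC
      _ = C := mul_one C
  rw [e1]
  linarith

theorem abs_int_big {v : ℝ → ℝ} {G : ℂ → ℂ} {A a η₀ : ℝ}
    (h : Pool.Agent.Helper7.GW.Setup v G A a η₀) {s : ℂ} (hs : G s = 0) (hs0 : 0 < s.re)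
    {δ ε : ℝ} (hδ : 0 < δ) (hε : 0 < ε) :
    ∀ᶠ T : ℝ in atTop, Real.exp ((s.re - ε) * T) ≤ ∫ t in Icc T ((1 + δ) * T), max (v t) 0 := by
  obtain ⟨δ₁, ε₁, δ', w, q, C, h1, h2, h3, h4, h5, h6, h7, h8, h9, haw, hw0, _, hqC, hlt, hρj⟩ :=
    n1_prel h hs hs0 hδ hε 0
  obtain ⟨N, η, ρ, hη, hρ0, _, hρ, hbig⟩ := gm_big h haw hs hlt
  have hρ' := hρj ρ hρ0 (hρ s hs hlt)
  have hσ0 : (0 : ℝ) < Real.exp (-(ε₁ / (2 * w))) := Real.exp_pos _
  have hσ1 : Real.exp (-(ε₁ / (2 * w))) < 1 := by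
    rw [Real.exp_lt_one_iff]
    have : 0 < ε₁ / (2 * w) := by positivity
    linarith
  have hgrow := eventually_log_lt hσ0 hσ1 hη w 0 (w + A * C)
  have hev : ∀ᶠ j : ℕ in atTop, (∃ i : ℕ, j ≤ i ∧ i < j + N ∧ η * (ρ⁻¹) ^ i / i ≤ gm v w i) ∧
      (∀ i : ℕ, j ≤ i → w + A * C < η * ((Real.exp (-(ε₁ / (2 * w))))⁻¹) ^ i / i) := by
    refine hbig.and ?_
    obtain ⟨J0, hJ0⟩ := eventually_atTop.1 hgrow
    filter_upwards [eventually_ge_atTop J0] with j hj i hi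
    have h1 := hJ0 i (hj.trans hi)
    simpa using h1
  have hev' := (tendsto_J (δ := δ₁) (w := w) h1 hw0).eventually hev
  filter_upwards [hev', win_subset h1 h2 h7 h8 hw0 N, eventually_gt_atTop (0 : ℝ)] with T hT1 hT2 hT0
  obtain ⟨⟨j, hj1, hj2, hj3⟩, hj4⟩ := hT1
  have h5' := hj4 j hj1
  have hAC : 0 ≤ A * C := mul_nonneg h.grow.hA hqC.hC
  have hjpos : (0 : ℝ) < j := by
    rcases Nat.eq_zero_or_pos j with h0 | h0
    · exfalso
      rw [h0] at h5'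
      simp at h5'
      linarith
    · exact_mod_cast h0
  have hjT : T ≤ j / w := by
    rw [le_div_iff₀ hw0]
    have e1 : w * (1 + δ₁ / 2) * T ≤ j := le_trans (Nat.le_ceil _) (by exact_mod_cast hj1)
    nlinarith [mul_pos (mul_pos hw0 h1) hT0]
  have hsub : win δ' w j ⊆ Icc T ((1 + δ) * T) :=
    (hT2 j hj1 hj2).trans (Icc_subset_Icc le_rfl (mul_le_mul_of_nonneg_right (by linarith) hT0.le))
  have hub := n1_window h.grow haw hqC j hT0 hsub
  have hpow : ((Real.exp (-(ε₁ / (2 * w))))⁻¹) ^ j = Real.exp ((j / w) * (ε₁ / 2)) := by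
    rw [← Real.exp_neg, neg_neg, ← Real.exp_nat_mul]
    congr 1
    field_simp
  rw [hpow] at h5'
  have h6' : Real.exp ((j / w) * (s.re - 3 * ε₁ / 4)) * Real.exp ((j / w) * (ε₁ / 2)) =
      Real.exp ((j / w) * (s.re - ε₁ / 4)) := by
    rw [← Real.exp_add]
    congr 1
    ring
  set K : ℝ := Real.exp ((j / w) * (s.re - 3 * ε₁ / 4)) with hK
  have hjw : 0 ≤ (j : ℝ) / w := by positivity
  have hK1 : 1 ≤ K := by
    rw [hK]
    exact Real.one_le_exp (mul_nonneg hjw (by linarith))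
  have hK2 : Real.exp ((s.re - ε) * T) ≤ K := by
    rw [hK]
    apply Real.exp_le_exp.2
    calc (s.re - ε) * T ≤ (s.re - ε₁) * T := mul_le_mul_of_nonneg_right (by linarith) hT0.le
      _ ≤ (s.re - ε₁) * (j / w) := mul_le_mul_of_nonneg_left hjT h6.le
      _ = (j / w) * (s.re - ε₁) := mul_comm _ _
      _ ≤ (j / w) * (s.re - 3 * ε₁ / 4) := mul_le_mul_of_nonneg_left (by linarith) hjw
  have h8' : K * (w + A * C) ≤ gm v w j := by
    calc K * (w + A * C) ≤ K * (η * Real.exp ((j / w) * (ε₁ / 2)) / j) :=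
          mul_le_mul_of_nonneg_left h5'.le (by linarith)
      _ = η * Real.exp ((j / w) * (s.re - ε₁ / 4)) / j := by
          rw [← h6']
          ring
      _ ≤ η * (ρ⁻¹) ^ j / j := by
          gcongr
          exact hρ' j
      _ ≤ gm v w j := hj3
  have h9' : w * K + A * C ≤ K * (w + A * C) := by
    have : A * C ≤ K * (A * C) := le_mul_of_one_le_left hAC hK1
    nlinarith
  have h10 : w * K ≤ w * ∫ t in Icc T ((1 + δ) * T), max (v t) 0 := by linarith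
  exact hK2.trans (le_of_mul_le_mul_left h10 hw0)

end Pool.Agent.Helper16.CR
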