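import Pool.Agent.Helper16.OM.Main

/-!
# CR (MP_ad1693_nt), V3a: `hs` is measurable and bounded on compact sets
-/

set_option autoImplicit false

namespace Pool.Agent.Helper16.CR

open Complex Filter Topology MeasureTheory Set
open Pool.Agent.Helper13.Bsd Pool.Agent.Helper7.GW Pool.Agent.Helper58.BSD Pool.Agent.Helper29.MS
open Pool.Agent.Helper16.OM (hs TTb hs_exp)

theorem measurable_TTb (N : ℕ → ℕ) (bad : ℕ → Prop) [DecidablePred bad] : Measurable (TTb N bad) := by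
  classical
  let f : ℕ → ℝ → ℝ := fun n x => ∑ p ∈ Finset.range n,
    if (p < ⌈x⌉₊ ∧ (p.Prime ∧ ¬ bad p ∧ x ≤ (p : ℝ) ^ 2)) then
      (((p : ℝ) + 1 - N p) ^ 2 - 2 * p) / (2 * (p : ℝ) ^ 2) else 0
  have hf : ∀ n, Measurable (f n) := by
    intro n
    apply Finset.measurable_fun_sum
    intro p _
    apply Measurable.ite _ measurable_const measurable_const
    have e1 : MeasurableSet {x : ℝ | p < ⌈x⌉₊} := by
      have : Measurable (fun x : ℝ => ⌈x⌉₊) := Nat.measurable_ceil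
      exact this (measurableSet_Ioi (a := p))
    have e2 : MeasurableSet {x : ℝ | x ≤ (p : ℝ) ^ 2} := measurableSet_Iic
    have e3 : MeasurableSet {x : ℝ | p.Prime ∧ ¬ bad p} := MeasurableSet.const _
    have e4 := e1.inter (e3.inter e2)
    have e5 : {x : ℝ | p < ⌈x⌉₊ ∧ (p.Prime ∧ ¬ bad p ∧ x ≤ (p : ℝ) ^ 2)} =
        {x : ℝ | p < ⌈x⌉₊} ∩ ({x : ℝ | p.Prime ∧ ¬ bad p} ∩ {x : ℝ | x ≤ (p : ℝ) ^ 2}) := by
      ext x
      simp only [Set.mem_ofPred_eq, Set.mem_inter_iff]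
      tauto
    rw [e5]
    exact e4
  apply measurable_of_tendsto_metrizable hf
  rw [tendsto_pi_nhds]
  intro x
  apply tendsto_const_nhds.congr'
  filter_upwards [eventually_ge_atTop ⌈x⌉₊] with n hn
  simp only [f]
  unfold TTb
  rw [Finset.sum_filter, ← Finset.sum_filter_add_sum_filter_not (Finset.range n) (fun p => p < ⌈x⌉₊)]
  rw [show (Finset.range n).filter (fun p => p < ⌈x⌉₊) = Finset.range ⌈x⌉₊ by
    ext p
    simp only [Finset.mem_filter, Finset.mem_range]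
    omega]
  rw [Finset.sum_congr rfl (g := fun p => if (p < ⌈x⌉₊ ∧ (p.Prime ∧ ¬ bad p ∧ x ≤ (p : ℝ) ^ 2)) then
      (((p : ℝ) + 1 - N p) ^ 2 - 2 * p) / (2 * (p : ℝ) ^ 2) else 0)]
  · symm
    rw [add_eq_left]
    apply Finset.sum_eq_zero
    intro p hp
    rw [Finset.mem_filter] at hp
    rw [if_neg]
    tauto
  · intro p hp
    rw [Finset.mem_range] at hp
    simp only [hp, true_and]

theorem TTb_bdd_le (N : ℕ → ℕ) (bad : ℕ → Prop) [DecidablePred bad] (b : ℝ) :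
    ∃ C : ℝ, 0 ≤ C ∧ ∀ x : ℝ, x ≤ b → |TTb N bad x| ≤ C := by
  refine ⟨∑ p ∈ Finset.range ⌈b⌉₊, |(((p : ℝ) + 1 - N p) ^ 2 - 2 * p) / (2 * (p : ℝ) ^ 2)|,
    Finset.sum_nonneg fun _ _ => abs_nonneg _, fun x hx => ?_⟩
  unfold TTb
  refine (Finset.abs_sum_le_sum_abs _ _).trans ?_
  apply Finset.sum_le_sum_of_subset_of_nonneg
  · intro p hp
    rw [Finset.mem_filter, Finset.mem_range] at hp
    rw [Finset.mem_range]
    exact hp.1.trans_le (Nat.ceil_mono hx)
  · intro p _ _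
    exact abs_nonneg _

section

variable (W : WeierstrassCurve ℤ) (N : ℕ → ℕ)
    (hNdef : ∀ p : ℕ, N p = 1 + ((Finset.range p ×ˢ Finset.range p).filter
      (fun q : ℕ × ℕ => (p : ℤ) ∣ ((q.2 : ℤ) ^ 2 + W.a₁ * (q.1 : ℤ) * (q.2 : ℤ) + W.a₃ * (q.2 : ℤ)
        - ((q.1 : ℤ) ^ 3 + W.a₂ * (q.1 : ℤ) ^ 2 + W.a₄ * (q.1 : ℤ) + W.a₆)))).card)

theorem measurable_hs (F : ℂ → ℂ) : Measurable (hs W N F) := by
  unfold hs
  have h1 : Measurable (PE W N) := by
    have h1 : Measurable (fun n : ℕ => ∏ p ∈ (Finset.range n).filter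
      (fun p : ℕ => Nat.Prime p ∧ ¬ (((p : ℕ) : ℤ) ∣ W.Δ)), ((N p : ℝ) / (p : ℝ))) := measurable_from_nat
    exact h1.comp Nat.measurable_ceil
  have h2 : Measurable (TTb N (badW W)) := measurable_TTb N (badW W)
  have h3 : Measurable (fun x : ℝ => Real.exp (TTb N (badW W) x)) := Real.measurable_exp.comp h2
  have h4 : Measurable (fun x : ℝ => kon F / 2 * Real.log x ^ (analyticOrderNatAt F 1)) :=
    (Real.measurable_log.pow_const _).const_mul _
  exact Real.measurable_log.comp ((h1.mul h3).div h4)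

include hNdef in
theorem hs_bdd (hΔ : W.Δ ≠ 0) (F : ℂ → ℂ) (hFd : Differentiable ℂ F) (hF : EulerHyp W N F) (a b : ℝ)
    (ha : 0 < a) : ∃ C : ℝ, 0 ≤ C ∧ ∀ t : ℝ, a ≤ t → t ≤ b → |hs W N F (Real.exp t)| ≤ C := by
  obtain ⟨C1, hC1, hTT⟩ := TTb_bdd_le N (badW W) (Real.exp b)
  refine ⟨8 * Real.exp (2 * b) + C1 + (analyticOrderNatAt F 1 : ℕ) * (|Real.log a| + |Real.log b|)
    + |Real.log (kon F / 2)|, by positivity, fun t hat htb => ?_⟩
  have ht : 0 < t := lt_of_lt_of_le ha hat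
  rw [hs_exp W N hNdef hΔ F hFd hF t ht]
  have h1 := LL_bound N (badW W) (hN_of W N hNdef) (ap_bound W N hNdef) t ht.le
  have h2 : 8 * Real.exp (2 * t) ≤ 8 * Real.exp (2 * b) := by
    have := Real.exp_le_exp.mpr (show 2 * t ≤ 2 * b by linarith)
    linarith
  have h3 := abs_le.mp (hTT (Real.exp t) (Real.exp_le_exp.mpr htb))
  have h5 : |Real.log t| ≤ |Real.log a| + |Real.log b| := by
    have h6 := Real.log_le_log ha hat
    have h7 := Real.log_le_log ht htb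
    rw [abs_le]
    have h8 := neg_abs_le (Real.log a)
    have h9 := le_abs_self (Real.log b)
    have h10 := abs_nonneg (Real.log a)
    have h11 := abs_nonneg (Real.log b)
    constructor <;> linarith
  have h6 : |(analyticOrderNatAt F 1 : ℕ) * Real.log t| ≤
      (analyticOrderNatAt F 1 : ℕ) * (|Real.log a| + |Real.log b|) := by
    rw [abs_mul, Nat.abs_cast]
    exact mul_le_mul_of_nonneg_left h5 (Nat.cast_nonneg _)
  have h7 := abs_le.mp h1
  have h8 := abs_le.mp h6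
  have h9 := le_abs_self (Real.log (kon F / 2))
  have h10 := neg_abs_le (Real.log (kon F / 2))
  rw [abs_le]
  constructor <;> linarith [h7.1, h7.2, h8.1, h8.2, h3.1, h3.2]

end

end Pool.Agent.Helper16.CR
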